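import Pool.Agent.H2.Clue1

/-! Tribes with one additional giant tribe: a noise-sensitive monotone sequence with variance
bounded below, depending on all coordinates, with `E[clue(f|B^δ)] ≫ cp_f(δ)`. -/

namespace Pool.Agent.Results.MP_b26fee_pr.Tribes

open Finset Filter Topology Pool.Agent.H2.Clue

def sz (M k D : ℕ) (j : Option (Fin M)) : ℕ := j.elim D fun _ => k

abbrev W (M k D : ℕ) : Type := Σ j : Option (Fin M), Fin (sz M k D j)

variable {M k D : ℕ}

@[simp] lemma sz_none : sz M k D none = D := rfl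
@[simp] lemma sz_some (j : Fin M) : sz M k D (some j) = k := rfl

def tr (ω : W M k D → Bool) : ℝ := if ∃ j, ∀ a, ω ⟨j, a⟩ = true then 1 else -1

def g (ω : W M k D → Bool) : ℝ := ∏ j, (1 - AND fun a => ω ⟨j, a⟩)

lemma g_eq (ω : W M k D → Bool) : g ω = if ∃ j, ∀ a, ω ⟨j, a⟩ = true then 0 else 1 := by
  unfold g
  split_ifs with h
  · obtain ⟨j, hj⟩ := h
    exact prod_eq_zero (mem_univ j) (by rw [AND_eq, if_pos hj]; simp)
  · refine prod_eq_one fun j _ => ?_
    rw [AND_eq, if_neg fun hj => h ⟨j, hj⟩]; simp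

lemma tr_eq : (tr : (W M k D → Bool) → ℝ) = fun ω => 1 - 2 * g ω := by
  funext ω
  rw [g_eq]; unfold tr
  split_ifs <;> norm_num

lemma prod_sz (φ : ℕ → ℝ) : ∏ j : Option (Fin M), φ (sz M k D j) = φ D * φ k ^ M := by
  rw [Fintype.prod_option]; simp

lemma PE_g : PE (1 / 2) (g : (W M k D → Bool) → ℝ) = ∏ j, (1 - (1 / 2 : ℝ) ^ sz M k D j) := by
  refine (PE_sigma (1 / 2) fun j x => 1 - AND x).trans (prod_congr rfl fun j _ => ?_)
  rw [PE_sub, PE_const, PE_AND, Fintype.card_fin]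

lemma Var_g : Var (1 / 2) (g : (W M k D → Bool) → ℝ) =
    PE (1 / 2) (g : (W M k D → Bool) → ℝ) - PE (1 / 2) (g : (W M k D → Bool) → ℝ) ^ 2 := by
  unfold Var
  congr 2
  funext ω
  rw [g_eq]; split_ifs <;> norm_num

lemma condE_g (U ω : W M k D → Bool) : condE (1 / 2) g U ω =
    ∏ j, PE (1 / 2) fun η => 1 - AND (mix (fun a => U ⟨j, a⟩) (fun a => ω ⟨j, a⟩) η) :=
  PE_sigma (1 / 2) fun j η => 1 - AND (mix (fun a => U ⟨j, a⟩) (fun a => ω ⟨j, a⟩) η)

lemma PE_condE (U : W M k D → Bool) :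
    PE (1 / 2) (condE (1 / 2) g U) = PE (1 / 2) (g : (W M k D → Bool) → ℝ) := by
  rw [PE_g, show condE (1 / 2) g U = _ from funext (condE_g U)]
  refine (PE_sigma (1 / 2) fun j x => PE (1 / 2) fun η =>
    1 - AND (mix (fun a => U ⟨j, a⟩) x η)).trans (prod_congr rfl fun j _ => ?_)
  simp only [PE_sub, PE_const, PE_cond_AND, Fintype.card_fin]

lemma PE_condE_sq (U : W M k D → Bool) (hU : ∀ j a, U ⟨some j, a⟩ = true) :
    (1 - 2 * (1 / 2 : ℝ) ^ D) * (1 - (1 / 2) ^ k) ^ M ≤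
      PE (1 / 2) fun ω => condE (1 / 2) g U ω ^ 2 := by
  simp only [condE_g, ← prod_pow]
  rw [PE_sigma (1 / 2) fun j x => (PE (1 / 2) fun η =>
    1 - AND (mix (fun a => U ⟨j, a⟩) x η)) ^ 2, Fintype.prod_option]
  have h1 : ∀ j : Fin M, (PE (1 / 2) fun x => (PE (1 / 2) fun η =>
      1 - AND (mix (fun a => U ⟨some j, a⟩) x η)) ^ 2) = 1 - (1 / 2) ^ k := by
    intro j
    have : ∀ x η : Fin (sz M k D (some j)) → Bool, mix (fun a => U ⟨some j, a⟩) x η = x := by
      intro x η; funext a; simp [mix, hU]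
    simp only [this, PE_const]
    have h2 : ∀ x : Fin (sz M k D (some j)) → Bool, (1 - AND x) ^ 2 = 1 - AND x := by
      intro x; rw [AND_eq]; split_ifs <;> norm_num
    simp only [h2, PE_sub, PE_const, PE_AND, Fintype.card_fin]
    rfl
  simp only [h1, prod_const, card_univ, Fintype.card_fin]
  refine mul_le_mul_of_nonneg_right ?_ (pow_nonneg (sub_nonneg.2 (pow_le_one₀ (by norm_num)
    (by norm_num))) _)
  have h3 := PE_cond_AND fun a => U ⟨none, a⟩
  rw [Fintype.card_fin] at h3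
  change _ = (1 / 2 : ℝ) ^ D at h3
  have h4 : (PE (1 / 2) fun x => 1 - 2 * PE (1 / 2) fun η => AND (mix (fun a => U ⟨none, a⟩) x η)) =
      1 - 2 * (1 / 2 : ℝ) ^ D := by rw [PE_sub, PE_const, PE_mul, h3]
  rw [← h4]
  refine PE_mono (by norm_num) (by norm_num) fun x => ?_
  rw [PE_sub, PE_const]
  nlinarith [sq_nonneg (PE (1 / 2) fun η => AND (mix (fun a => U ⟨none, a⟩) x η))]

lemma condE_tr (U : W M k D → Bool) :
    condE (1 / 2) tr U = fun ω => 1 - 2 * condE (1 / 2) g U ω := by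
  funext ω
  simp only [condE, tr_eq, PE_sub, PE_mul, PE_const]

lemma noise_tr (ε : ℝ) : noiseCov (1 / 2) (tr : (W M k D → Bool) → ℝ) ε =
    4 * (∏ j, (1 - 2 * (1 / 2 : ℝ) ^ sz M k D j + (1 / 2 - ε / 4) ^ sz M k D j) -
      ∏ j, (1 - (1 / 2 : ℝ) ^ sz M k D j) ^ 2) := by
  have h1 : (PE ε fun R : W M k D → Bool => PE (1 / 2) fun ω => PE (1 / 2) fun η =>
      g (mix R η ω)) = PE (1 / 2) (g : (W M k D → Bool) → ℝ) := by
    have : ∀ R : W M k D → Bool, (PE (1 / 2) fun ω => PE (1 / 2) fun η => g (mix R η ω)) =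
        PE (1 / 2) (g : (W M k D → Bool) → ℝ) := fun R => by
      have := PE_condE (fun i => !R i)
      unfold condE at this
      simpa only [mix_swap] using this
    simp only [this, PE_const]
  have h2 : (PE ε fun R : W M k D → Bool => PE (1 / 2) fun ω => PE (1 / 2) fun η =>
      g ω * g (mix R η ω)) =
      ∏ j, (1 - 2 * (1 / 2 : ℝ) ^ sz M k D j + (1 / 2 - ε / 4) ^ sz M k D j) := by
    have a1 : ∀ R ω : W M k D → Bool, (PE (1 / 2) fun η => g ω * g (mix R η ω)) =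
        ∏ j, PE (1 / 2) fun η => (1 - AND fun a => ω ⟨j, a⟩) *
          (1 - AND (mix (fun a => R ⟨j, a⟩) η fun a => ω ⟨j, a⟩)) := by
      intro R ω
      simp only [g, ← prod_mul_distrib]
      exact PE_sigma (1 / 2) fun j η => (1 - AND fun a => ω ⟨j, a⟩) *
          (1 - AND (mix (fun a => R ⟨j, a⟩) η fun a => ω ⟨j, a⟩))
    have a2 : ∀ R : W M k D → Bool, (PE (1 / 2) fun ω => PE (1 / 2) fun η =>
        g ω * g (mix R η ω)) = ∏ j, PE (1 / 2) fun x => PE (1 / 2) fun η => (1 - AND x) *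
          (1 - AND (mix (fun a => R ⟨j, a⟩) η x)) := by
      intro R
      simp only [a1]
      exact PE_sigma (1 / 2) fun j x => PE (1 / 2) fun η => (1 - AND x) *
          (1 - AND (mix (fun a => R ⟨j, a⟩) η x))
    simp only [a2]
    refine (PE_sigma ε fun j r => PE (1 / 2) fun x => PE (1 / 2) fun η => (1 - AND x) *
          (1 - AND (mix r η x))).trans (prod_congr rfl fun j _ => ?_)
    rw [noise_block, Fintype.card_fin]
  have h3 : ∀ R ω η : W M k D → Bool, (1 - 2 * g ω) * (1 - 2 * g (mix R η ω)) =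
      1 - 2 * g ω - 2 * g (mix R η ω) + 4 * (g ω * g (mix R η ω)) := by intros; ring
  unfold noiseCov
  rw [tr_eq, ← h2, prod_pow, ← PE_g]
  simp only [h3, PE_add, PE_sub, PE_const, PE_mul (c := 2), PE_mul (c := 4), h1]
  ring

lemma noise_bound {ε : ℝ} (h0 : 0 < ε) (h1 : ε < 1) :
    0 ≤ noiseCov (1 / 2) (tr : (W M k D → Bool) → ℝ) ε ∧
    noiseCov (1 / 2) (tr : (W M k D → Bool) → ℝ) ε ≤
      4 * ((1 / 2 - ε / 4) ^ D + M * (1 / 2 - ε / 4) ^ k) := by
  rw [noise_tr]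
  have e : ∀ s : ℕ, ((1 / 2 : ℝ) ^ s) ^ 2 = (1 / 4) ^ s := by
    intro s; rw [← pow_mul, mul_comm, pow_mul]; norm_num
  have l1 : ∀ s : ℕ, (1 / 4 : ℝ) ^ s ≤ (1 / 2 - ε / 4) ^ s := fun s =>
    pow_le_pow_left₀ (by norm_num) (by linarith) s
  have l2 : ∀ s : ℕ, (1 / 2 - ε / 4) ^ s ≤ (1 / 2 : ℝ) ^ s := fun s =>
    pow_le_pow_left₀ (by linarith) (by linarith) s
  have := abs_prod_sub univ (fun j : Option (Fin M) => (1 - (1 / 2 : ℝ) ^ sz M k D j) ^ 2)
    (fun j => 1 - 2 * (1 / 2 : ℝ) ^ sz M k D j + (1 / 2 - ε / 4) ^ sz M k D j)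
    (fun _ => sq_nonneg _) (fun j => by nlinarith [e (sz M k D j), l1 (sz M k D j)])
    (fun j => by nlinarith [l2 (sz M k D j), pow_pos (show (0 : ℝ) < 1 / 2 by norm_num) (sz M k D j)])
  refine ⟨by linarith [this.1], ?_⟩
  have h : ∑ j : Option (Fin M), ((1 - 2 * (1 / 2 : ℝ) ^ sz M k D j + (1 / 2 - ε / 4) ^ sz M k D j) -
      (1 - (1 / 2 : ℝ) ^ sz M k D j) ^ 2) ≤ ∑ j : Option (Fin M), (1 / 2 - ε / 4) ^ sz M k D j :=
    sum_le_sum fun j _ => by nlinarith [sq_nonneg ((1 / 2 : ℝ) ^ sz M k D j)]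
  rw [Fintype.sum_option (fun j => (1 / 2 - ε / 4) ^ sz M k D j)] at h
  simp only [sz_none, sz_some, sum_const, card_univ, Fintype.card_fin, nsmul_eq_mul] at h
  linarith [this.2]

lemma P_bounds (n : ℕ) : 1 / 2 ≤ (1 - (1 / 2 : ℝ) ^ (n + 1)) ^ 2 ^ n ∧
    (1 - (1 / 2 : ℝ) ^ (n + 1)) ^ 2 ^ n ≤ 2 / 3 := by
  set x := (1 / 2 : ℝ) ^ (n + 1) with hx
  have hx0 : 0 < x := by positivity
  have hx1 : x ≤ 1 := pow_le_one₀ (by norm_num) (by norm_num)
  have hm : ((2 ^ n : ℕ) : ℝ) * x = 1 / 2 := by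
    rw [hx, pow_succ]; push_cast
    rw [← mul_assoc, ← mul_pow]; norm_num
  have h1 := one_add_mul_le_pow (a := -x) (by linarith) (2 ^ n)
  have h2 := one_add_mul_le_pow (a := x) (by linarith) (2 ^ n)
  have h3 : (1 - x) ^ 2 ^ n * (1 + x) ^ 2 ^ n ≤ 1 := by
    rw [← mul_pow]; exact pow_le_one₀ (by nlinarith) (by nlinarith)
  rw [← sub_eq_add_neg] at h1
  constructor <;> nlinarith

lemma var_bound (n : ℕ) (hD : 5 ≤ D) :
    1 / 12 ≤ Var (1 / 2) (g : (W (2 ^ n) (n + 1) D → Bool) → ℝ) := by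
  rw [Var_g, PE_g, prod_sz fun s => 1 - (1 / 2 : ℝ) ^ s]
  have := P_bounds n
  have h1 : (1 / 2 : ℝ) ^ D ≤ (1 / 2) ^ 5 := pow_le_pow_of_le_one (by norm_num) (by norm_num) hD
  have h2 : 0 < (1 / 2 : ℝ) ^ D := by positivity
  set P := (1 - (1 / 2 : ℝ) ^ (n + 1)) ^ 2 ^ n
  set θ := (1 / 2 : ℝ) ^ D
  have a1 : 1 / 4 ≤ (1 - θ) * P := by nlinarith
  have a2 : (1 - θ) * P ≤ 2 / 3 := by nlinarith
  nlinarith

lemma clue_ge (n : ℕ) (hD : 5 ≤ D) (U : W (2 ^ n) (n + 1) D → Bool)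
    (hU : ∀ j a, U ⟨some j, a⟩ = true) : 1 - 12 * (1 / 2 : ℝ) ^ D ≤ clue (1 / 2) tr U := by
  have hv := var_bound n hD
  unfold clue
  rw [condE_tr, tr_eq, Var_affine, Var_affine, le_div_iff₀ (by linarith)]
  have h1 := PE_condE_sq U hU
  have h2 : Var (1 / 2) (g : (W (2 ^ n) (n + 1) D → Bool) → ℝ) - (1 / 2 : ℝ) ^ D ≤
      Var (1 / 2) (condE (1 / 2) g U) := by
    rw [Var_g]
    unfold Var
    rw [PE_condE, PE_g, prod_sz fun s => 1 - (1 / 2 : ℝ) ^ s]
    have := P_bounds n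
    have h2 : 0 < (1 / 2 : ℝ) ^ D := by positivity
    nlinarith
  have h3 : 0 < (1 / 2 : ℝ) ^ D := by positivity
  nlinarith

lemma clue_nonneg (U : W M k D → Bool) : 0 ≤ clue (1 / 2) tr U :=
  div_nonneg (Var_nonneg (by norm_num) (by norm_num) _) (Var_nonneg (by norm_num) (by norm_num) _)

lemma Eclue_ge (n : ℕ) (hD : 5 ≤ D) {δ : ℝ} (h0 : 0 < δ) (h1 : δ < 1) :
    1 / 2 * δ ^ (2 ^ n * (n + 1)) ≤ Eclue (1 / 2) (tr : (W (2 ^ n) (n + 1) D → Bool) → ℝ) δ := by
  have h := PE_prod (V := W (2 ^ n) (n + 1) D) δ fun i b => if i.1.isSome then (if b then 1 else 0) else 1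
  have e : ∏ i : W (2 ^ n) (n + 1) D, (δ * (if i.1.isSome then (if true then 1 else 0) else 1) +
      (1 - δ) * (if i.1.isSome then (if false then 1 else 0) else 1)) = δ ^ (2 ^ n * (n + 1)) := by
    rw [Fintype.prod_sigma, Fintype.prod_option]
    simp only [Option.isSome_none, Option.isSome_some, prod_const, card_univ, Fintype.card_fin]
    simp [← pow_mul, mul_comm]
  rw [← e, ← h, ← PE_mul]
  refine PE_mono h0.le h1.le fun U => ?_
  by_cases hU : ∀ j a, U ⟨some j, a⟩ = true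
  · have := clue_ge n hD U hU
    have h2 : (1 / 2 : ℝ) ^ D ≤ (1 / 2) ^ 5 := pow_le_pow_of_le_one (by norm_num) (by norm_num) hD
    rw [prod_eq_one]
    · linarith
    · rintro ⟨_ | j, a⟩ _
      · simp
      · simp [hU]
  · push Not at hU
    obtain ⟨j, a, h⟩ := hU
    rw [prod_eq_zero (mem_univ ⟨some j, a⟩) (by simp [h]), mul_zero]
    exact clue_nonneg U

lemma card_W : Fintype.card (W M k D) = D + M * k := by
  rw [Fintype.card_sigma, Fintype.sum_option]
  simp only [Fintype.card_fin]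
  simp

lemma cp_bounds (n : ℕ) (hD : 5 ≤ D) {δ : ℝ} (h0 : 0 < δ) (h1 : δ ≤ 1 - 12 * (1 / 2 : ℝ) ^ D) :
    0 < cp (1 / 2) (tr : (W (2 ^ n) (n + 1) D → Bool) → ℝ) δ ∧
    cp (1 / 2) (tr : (W (2 ^ n) (n + 1) D → Bool) → ℝ) δ ≤ (2 ^ n * (n + 1) : ℕ) / D := by
  have hc : (0 : ℝ) < Fintype.card (W (2 ^ n) (n + 1) D) := by
    rw [card_W]; exact_mod_cast (by omega : 0 < D + 2 ^ n * (n + 1))
  have hmem : ((2 ^ n * (n + 1) : ℕ) : ℝ) / D ∈ {u | ∃ U : W (2 ^ n) (n + 1) D → Bool,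
      ((univ.filter fun i => U i = true).card : ℝ) / Fintype.card (W (2 ^ n) (n + 1) D) ≤ u ∧
      δ ≤ clue (1 / 2) tr U} := by
    refine ⟨fun i => i.1.isSome, ?_, h1.trans (clue_ge n hD _ fun _ _ => rfl)⟩
    have : (univ.filter fun i : W (2 ^ n) (n + 1) D => i.1.isSome = true).card = 2 ^ n * (n + 1) := by
      rw [card_filter, Fintype.sum_sigma, Fintype.sum_option]
      simp only [Option.isSome_none, Option.isSome_some, sum_const, card_univ, Fintype.card_fin]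
      simp
    rw [this, card_W]
    refine div_le_div_of_nonneg_left (by positivity) (by exact_mod_cast (by omega : 0 < D)) ?_
    exact_mod_cast Nat.le_add_right _ _
  have hlb : ∀ u ∈ {u | ∃ U : W (2 ^ n) (n + 1) D → Bool,
      ((univ.filter fun i => U i = true).card : ℝ) / Fintype.card (W (2 ^ n) (n + 1) D) ≤ u ∧
      δ ≤ clue (1 / 2) tr U}, 1 / (Fintype.card (W (2 ^ n) (n + 1) D) : ℝ) ≤ u := by
    rintro u ⟨U, hu, hU⟩
    refine le_trans (div_le_div_of_nonneg_right ?_ hc.le) hu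
    by_contra hlt
    have h2 : (univ.filter fun i => U i = true).card = 0 := by
      have : (univ.filter fun i => U i = true).card < 1 := by exact_mod_cast not_le.1 hlt
      omega
    rw [card_eq_zero, filter_eq_empty_iff] at h2
    have h3 : condE (1 / 2) tr U = fun _ => PE (1 / 2) (tr : (W (2 ^ n) (n + 1) D → Bool) → ℝ) := by
      funext ω
      unfold condE
      congr 2 with η
      congr 1
      funext i
      simp [mix, h2 (mem_univ i)]
    unfold clue Var at hU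
    rw [h3, PE_const, PE_const] at hU
    simp at hU
    linarith
  exact ⟨lt_of_lt_of_le (by positivity) (le_csInf ⟨_, hmem⟩ hlb), csInf_le ⟨_, hlb⟩ hmem⟩

def DD (n : ℕ) : ℕ := 2 ^ n * (n + 1) * (n ^ (2 ^ n * (n + 1)) * n) + n + 5

theorem result : ∃ (V : ℕ → Type) (_ : ∀ n, Fintype (V n)) (_ : ∀ n, DecidableEq (V n))
    (f : ∀ n, (V n → Bool) → ℝ),
    Tendsto (fun n => Fintype.card (V n)) atTop atTop ∧
    (∀ n ω, f n ω = 1 ∨ f n ω = -1) ∧ (∀ n, Monotone (f n)) ∧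
    (∀ n i, ∃ ω, f n (Function.update ω i true) ≠ f n (Function.update ω i false)) ∧
    (∀ n, 1 / 3 ≤ Var (1 / 2) (f n)) ∧
    (∀ ε, 0 < ε → ε < 1 → Tendsto (fun n => noiseCov (1 / 2) (f n) ε) atTop (𝓝 0)) ∧
    ∀ δ, 0 < δ → δ < 1 →
      Tendsto (fun n => Eclue (1 / 2) (f n) δ / cp (1 / 2) (f n) δ) atTop atTop := by
  have hD : ∀ n, 5 ≤ DD n := fun n => by unfold DD; omega
  have hDn : ∀ n, n ≤ DD n := fun n => by unfold DD; omega
  have hDt : Tendsto DD atTop atTop := tendsto_atTop_mono hDn tendsto_id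
  refine ⟨fun n => W (2 ^ n) (n + 1) (DD n), inferInstance, inferInstance, fun n => tr, ?_, ?_, ?_,
    ?_, ?_, ?_, ?_⟩
  · refine tendsto_atTop_mono (fun n => ?_) hDt
    rw [card_W]; omega
  · intro n ω; dsimp only; unfold tr; split_ifs <;> simp
  · intro n ω ω' h
    dsimp only
    unfold tr
    split_ifs with h1 h2
    · exact le_rfl
    · obtain ⟨j, hj⟩ := h1
      exact absurd ⟨j, fun a => Bool.eq_true_of_true_le (hj a ▸ h ⟨j, a⟩)⟩ h2
    · norm_num
    · exact le_rfl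
  · rintro n ⟨j, a⟩
    refine ⟨fun i => decide (i.1 = j), ?_⟩
    dsimp only
    unfold tr
    rw [if_pos, if_neg]
    · norm_num
    · rintro ⟨j', h⟩
      by_cases e : j' = j
      · subst e
        simpa using h a
      · have hpos : 0 < sz (2 ^ n) (n + 1) (DD n) j' := by
          have := hD n
          cases j' <;> simp; omega
        have := h ⟨0, hpos⟩
        rw [Function.update_of_ne fun h' => e (congrArg Sigma.fst h')] at this
        simp [e] at this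
    · refine ⟨j, fun b => ?_⟩
      rw [Function.update_apply]
      simp
  · intro n
    have := var_bound n (hD n)
    dsimp only
    rw [tr_eq, Var_affine]; linarith
  · intro ε h0 h1
    have t1 : Tendsto (fun n => (1 / 2 - ε / 4) ^ DD n) atTop (𝓝 0) :=
      (tendsto_pow_atTop_nhds_zero_of_lt_one (by linarith) (by linarith)).comp hDt
    have t2 : Tendsto (fun n : ℕ => (1 - ε / 2) ^ n * (1 / 2 - ε / 4)) atTop (𝓝 0) := by
      simpa using (tendsto_pow_atTop_nhds_zero_of_lt_one (r := 1 - ε / 2) (by linarith)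
        (by linarith)).mul_const (1 / 2 - ε / 4)
    have t3 := (t1.add t2).const_mul 4
    simp only [add_zero, mul_zero] at t3
    refine squeeze_zero (fun n => (noise_bound h0 h1).1) (fun n => (noise_bound h0 h1).2.trans
      (le_of_eq ?_)) t3
    rw [pow_succ, show 1 - ε / 2 = 2 * (1 / 2 - ε / 4) by ring, mul_pow]
    push_cast; ring
  · intro δ h0 h1
    have t1 : Tendsto (fun n => (1 / 2 : ℝ) ^ DD n) atTop (𝓝 0) :=
      (tendsto_pow_atTop_nhds_zero_of_lt_one (by norm_num) (by norm_num)).comp hDt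
    have e1 : ∀ᶠ n in atTop, (1 / 2 : ℝ) ^ DD n < (1 - δ) / 12 :=
      t1.eventually (gt_mem_nhds (by linarith))
    have e2 : ∀ᶠ n : ℕ in atTop, 1 / δ ≤ n := tendsto_natCast_atTop_atTop.eventually_ge_atTop _
    refine tendsto_atTop_mono' _ ?_ (tendsto_natCast_atTop_atTop.atTop_div_const two_pos)
    filter_upwards [e1, e2] with n a1 a2
    obtain ⟨c1, c2⟩ := cp_bounds n (hD n) h0 (by linarith)
    have c3 := Eclue_ge n (hD n) h0 h1
    rw [le_div_iff₀ c1]
    refine le_trans ?_ c3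
    have hDp : (0 : ℝ) < DD n := by exact_mod_cast (by have := hD n; omega : 0 < DD n)
    refine (mul_le_mul_of_nonneg_left c2 (by positivity)).trans ?_
    set m := 2 ^ n * (n + 1)
    have b1 : (1 : ℝ) ≤ (δ * n) ^ m := one_le_pow₀ (by rw [div_le_iff₀ h0] at a2; linarith)
    have b2 : (m : ℝ) * ((n : ℝ) ^ m * n) ≤ DD n := by
      have : m * (n ^ m * n) ≤ DD n := by
        unfold DD
        exact (Nat.le_add_right _ _).trans (Nat.le_add_right _ _)
      exact_mod_cast this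
    rw [← mul_div_assoc, div_le_iff₀ hDp]
    have b3 : 0 < δ ^ m := by positivity
    have b4 := mul_le_mul_of_nonneg_left b2 b3.le
    have b5 := mul_le_mul_of_nonneg_left b1 (show (0 : ℝ) ≤ m * n by positivity)
    rw [mul_pow] at b5
    nlinarith

end Pool.Agent.Results.MP_b26fee_pr.Tribes
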